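import Pool.Agent.Results.MP_4a0cc8_nt.AllFieldsCongruences
import Pool.Agent.R559.NP.Rel2

/-!
# No congruences with ANY elliptic curve, explicit primes, all number fields, invariants near a given point

Let `φ` be any map from the algebraic numbers to a metric space `X`, for example the inclusion in `ℂ` or in `ℂ_p`, `N ≥ 13`
and `τ > 0`.  For all `ξ ∈ X` outside a set of Hausdorff dimension at most `(1 + 1 / N) / τ`, for ALL number fields `K` and
ALL `j₀ ∈ K` only finitely many `j ∈ K` with `dist (φ j) ξ ≤ κ H_K(j) ^ (-τ)` are `N`-related to `j₀`: for the others NO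
elliptic curve over `K` of invariant `j` and NO elliptic curve over `K` of invariant `j₀` have the same `p`-division field
for any prime `p ≥ N`.
-/

set_option autoImplicit false

open NumberField

namespace Pool.Agent.Results.MP_4a0cc8_nt.AllFieldsNearAPoint

open AllFieldsCongruences (Related)

/-- **Theorem.** Let `φ` be a map from the algebraic numbers to a metric space `X`, `N ≥ 13` and `τ > 0`.  There is
`E ⊆ X` of Hausdorff dimension at most `(1 + 1 / N) / τ` such that for all `ξ ∈ X` outside `E`, all number fields `K` inside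
the algebraic numbers, all `j₀ ∈ K` and all `κ` there are only finitely many `j ∈ K` with
`dist (φ j) ξ ≤ κ H_K(j) ^ (-τ)`, `H_K` the height relative to `K`, such that some elliptic curves over `K` with the
invariants `j₀` and `j` have the same `p`-division field for some prime `p ≥ N`. -/
theorem result (X : Type) [MetricSpace X] (φ : AlgebraicClosure ℚ → X) (N : ℕ) (τ : ℝ) (hN : 13 ≤ N) (hτ : 0 < τ) :
    ∃ E : Set X, dimH E ≤ ENNReal.ofReal ((1 + 1 / (N : ℝ)) / τ) ∧ ∀ ξ : X, ξ ∉ E →
      ∀ (K : IntermediateField ℚ (AlgebraicClosure ℚ)) [NumberField K] (j₀ : K) (κ : ℝ),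
        {j : K | dist (φ j) ξ ≤ κ * Height.mulHeight₁ j ^ (-τ) ∧ Related N j₀ j}.Finite := by
  refine Pool.Agent.R559.NP.near_fields_param (X := X) (fun K _ j₀ j => Related N j₀ j)
    (s := 1 + 1 / (N : ℝ)) (τ := τ) (by positivity) hτ ?_ φ
  intro K _ j₀ ε hε
  obtain ⟨C, hC, h⟩ := AllFieldsCongruences.result.1 N ε hN hε
  have h0 : 0 < AllFieldsCongruences.absHeight j₀ ^ ε := Real.rpow_pos_of_pos (Real.exp_pos _) _
  refine ⟨C * AllFieldsCongruences.absHeight j₀ ^ ε, by positivity, fun B hB => ?_⟩
  obtain ⟨h1, h2⟩ := h K j₀ B hB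
  have hset : {j : K | Related N j₀ j ∧ Height.logHeight₁ j ≤ Module.finrank ℚ K * Real.log B} =
      AllFieldsCongruences.Partners N j₀ B := by
    ext j
    simp only [AllFieldsCongruences.Partners, AllFieldsCongruences.Inv, Set.mem_ofPred_eq]
    tauto
  rw [hset]
  refine ⟨h1.subset fun j hj => hj.1, h2.trans (le_of_eq ?_)⟩
  congr 1
  ring

end Pool.Agent.Results.MP_4a0cc8_nt.AllFieldsNearAPoint
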