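import Mathlib
import Pool.Agent.R365.CP.Fin

/-!
# MP_4a0cc8_nt: outside a fixed sparse set of elliptic curves, every curve has a bounded number of
partners, at all large levels and for all conductors

Let `K` be a number field of degree `d`. We consider ALL elliptic curves `E` over `K` with full
rational two-torsion, up to isomorphism over `K` (all quadratic twists, all heights), ordered by the
norm `X` of the conductor (outside two).

1. Their number is between `c X ^ (2 / 3)` and `C X ^ (2 / 3)`.
2. All but `C X ^ (2 / 3 - ν)` of them satisfy Szpiro's inequality with exponent `13 / 6` for the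
   invariant `j(E)`. The exceptional set depends on `K` only.
3. For EVERY finite set `S` of primes the curves `E` (of any conductor) which are not exceptional and
   for which there is SOME elliptic curve `E₀` over `K` with good reduction outside `S` with
   `E[n] ≅ E₀[n]` for SOME level `n` have at most `C M ^ |S|` invariants `j(E)`, and for every
   `ε > 0` at most `C M ^ |S| X ^ ε` of them have conductor at most `X`, up to isomorphism. Here `n`
   is any integer larger than `1600 ^ (8 d + 17)` or any prime `p ≥ 17` with `p ^ 2 > 8 d + 1`.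
4. For every `ε > 0` there are at most `C X ^ (2 / 3 + ε)` pairs `(E, E₀)` of curves of the family with
   conductors at most `X`, `E` not exceptional, with `E[n] ≅ E₀[n]` for such an `n`, and in all at most
   `C X ^ (4 / 3 - ν)` such pairs, out of at least `c X ^ (4 / 3)` pairs.

In particular (`S` the set of the bad primes of `E₀`), a curve `E₀` with `ω` bad primes has at most
`C M ^ ω` invariants of partners `E` outside the exceptional set, whatever the conductor of `E₀`.

Proof. Outside `S` and finitely many primes the invariant of a partner `E` has at each pole `v` a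
valuation `-2 e` with `e ≥ 13` (theorems `FM.loc` and `FM.tameM` of the library of helper673, which
cover also `v ∣ n`), and `E` has good reduction at the primes at which `j(E)` is integral
(`FM.locG`, `FM.tameG`). If the height of the Legendre parameter is not large compared with its
radical, this forces most of the height of the parameter to be supported by `S`, and the
number of such solutions of the unit equation is at most `C M ^ |S|` (library of helper876, by Padé
approximations). The curves whose Legendre parameter has a large height are few by the theorem of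
this project on almost all points of the line `x + y + z = 0`.
-/

set_option autoImplicit false

open NumberField IsDedekindDomain
open scoped Classical

namespace Pool.Agent.Results.MP_4a0cc8_nt.FewPartnersOutsideExceptions

/-- The curve `y² = x³ + Ax + B` over `K`. -/
def curve {K : Type} [Field K] (A B : K) : WeierstrassCurve K := ⟨0, 0, 0, A, B⟩

/-- The group of its points over the algebraic closure of `K`. -/
abbrev Points {K : Type} [Field K] (A B : K) : Type :=
  ((curve A B).baseChange (AlgebraicClosure K)).toAffine.Point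

/-- The action of an automorphism `σ` of the algebraic closure over `K` on the points. -/
noncomputable def galois {K : Type} [Field K] (A B : K)
    (σ : AlgebraicClosure K ≃ₐ[K] AlgebraicClosure K) : Points A B →+ Points A B :=
  WeierstrassCurve.Affine.Point.map (σ : AlgebraicClosure K →ₐ[K] AlgebraicClosure K)

/-- The groups of the points killed by `n` of `y² = x³ + Ax + B` and of `y² = x³ + A'x + B'` are
isomorphic as Galois modules: some map between the groups of points restricts to a bijective
additive map between them which commutes with the Galois group of `K`. -/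
def Congruent {K : Type} [Field K] (n : ℕ) (A B A' B' : K) : Prop :=
  ∃ f : Points A B → Points A' B', (∀ P Q, n • P = 0 → n • Q = 0 → f (P + Q) = f P + f Q) ∧
    Set.BijOn f {P | n • P = 0} {Q | n • Q = 0} ∧
    ∀ (σ : AlgebraicClosure K ≃ₐ[K] AlgebraicClosure K) (P : Points A B), n • P = 0 →
      f (galois A B σ P) = galois A' B' σ (f P)

/-- full rational two-torsion: the polynomial of the first coordinates of the points of order two
has three roots -/
def FullTwo {K : Type} [Field K] (E : WeierstrassCurve K) : Prop :=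
  ∃ e : Fin 3 → K, Function.Injective e ∧
    ∀ i, 4 * e i ^ 3 + E.b₂ * e i ^ 2 + 2 * E.b₄ * e i + E.b₆ = 0

/-- good reduction at `v`: some Weierstrass equation over `K` of the curve is integral at `v` and
has a discriminant which is a unit at `v` -/
def GoodAt {K : Type} [Field K] [NumberField K] (v : HeightOneSpectrum (𝓞 K))
    (E : WeierstrassCurve K) : Prop :=
  ∃ C : WeierstrassCurve.VariableChange K,
    v.valuation K (C • E).a₁ ≤ 1 ∧ v.valuation K (C • E).a₂ ≤ 1 ∧ v.valuation K (C • E).a₃ ≤ 1 ∧
    v.valuation K (C • E).a₄ ≤ 1 ∧ v.valuation K (C • E).a₆ ≤ 1 ∧ v.valuation K (C • E).Δ = 1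

/-- semistable (good or multiplicative) reduction at `v`: some Weierstrass equation over `K` of the
curve is integral at `v` and its discriminant or its invariant `c₄` is a unit at `v` -/
def SemistableAt {K : Type} [Field K] [NumberField K] (v : HeightOneSpectrum (𝓞 K))
    (E : WeierstrassCurve K) : Prop :=
  ∃ C : WeierstrassCurve.VariableChange K,
    v.valuation K (C • E).a₁ ≤ 1 ∧ v.valuation K (C • E).a₂ ≤ 1 ∧ v.valuation K (C • E).a₃ ≤ 1 ∧
    v.valuation K (C • E).a₄ ≤ 1 ∧ v.valuation K (C • E).a₆ ≤ 1 ∧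
    (v.valuation K (C • E).Δ = 1 ∨ v.valuation K (C • E).c₄ = 1)

/-- the product of the norms of the primes `v` not above two of bad reduction -/
noncomputable def badProduct {K : Type} [Field K] [NumberField K] (E : WeierstrassCurve K) : ℝ :=
  ∏ᶠ v ∈ {v : HeightOneSpectrum (𝓞 K) | ¬ GoodAt v E ∧ v.valuation K 2 = 1},
    (Ideal.absNorm v.asIdeal : ℝ)

/-- the part prime to two of the norm of the conductor of a curve with full two-torsion: the product
over the primes `v` not above two of `N(v)` for multiplicative and `N(v) ^ 2` for additive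
reduction -/
noncomputable def cond {K : Type} [Field K] [NumberField K] (E : WeierstrassCurve K) : ℝ :=
  badProduct E *
  ∏ᶠ v ∈ {v : HeightOneSpectrum (𝓞 K) | ¬ SemistableAt v E ∧ v.valuation K 2 = 1},
    (Ideal.absNorm v.asIdeal : ℝ)

/-- The invariant of `y² = x³ + Ax + B`. -/
noncomputable def jInvariant {K : Type} [Field K] (A B : K) : K :=
  6912 * A ^ 3 / (4 * A ^ 3 + 27 * B ^ 2)

/-- the product of the norms of the primes `v` not above two at which `j` is not integral (the
primes of potentially multiplicative reduction of the curves with invariant `j`) -/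
noncomputable def poleProduct {K : Type} [Field K] [NumberField K] (j : K) : ℝ :=
  ∏ᶠ v ∈ {v : HeightOneSpectrum (𝓞 K) | ¬ v.valuation K j ≤ 1 ∧ v.valuation K 2 = 1},
    (Ideal.absNorm v.asIdeal : ℝ)

/-- Szpiro's inequality with exponent `13 / 6` for the invariant `j`: the height of `j` is at most
`13 / 6` times the logarithm of the product of its poles. Both sides depend on `j` only; for the
typical curve with full two-torsion the exponent is `2 + o(1)`. (`Height.logHeight₁` is the
logarithmic height, `[K : ℚ]` times the absolute one.) -/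
def Szpiro {K : Type} [Field K] [NumberField K] (j : K) : Prop :=
  Height.logHeight₁ j ≤ 13 / 6 * Real.log (poleProduct j)

/-- the Weierstrass curves over `K` up to isomorphism over `K` (changes of variables) -/
abbrev IsoClass (K : Type) [Field K] : Type :=
  Quotient (MulAction.orbitRel (WeierstrassCurve.VariableChange K) (WeierstrassCurve K))

/-- the isomorphism classes of the elliptic curves over `K` with full rational two-torsion and
conductor (outside two) at most `X` -/
def Curves (K : Type) [Field K] [NumberField K] (X : ℝ) : Set (IsoClass K) :=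
  {q | ∃ E : WeierstrassCurve K, Quotient.mk'' E = q ∧ E.Δ ≠ 0 ∧ FullTwo E ∧ cond E ≤ X}

/-- the levels: all primes `n ≥ 17` with `n ^ 2 > 8 d + 1` and all `n > 1600 ^ (8 d + 17)` -/
def Level (d n : ℕ) : Prop :=
  (n.Prime ∧ 17 ≤ n ∧ 8 * d + 1 < n ^ 2) ∨ 1600 ^ (8 * d + 17) < n

/-- the classes of the curves with conductor at most `X` which do not satisfy Szpiro's inequality -/
def Exceptional (K : Type) [Field K] [NumberField K] (X : ℝ) : Set (IsoClass K) :=
  {q | ∃ E : WeierstrassCurve K, Quotient.mk'' E = q ∧ E.Δ ≠ 0 ∧ FullTwo E ∧ cond E ≤ X ∧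
    ¬ Szpiro (E.c₄ ^ 3 / E.Δ)}

/-- `E : y² = x³ + Ax + B` has a partner with good reduction outside `S`: there are an elliptic curve
`E₀` over `K` which has good reduction at all primes not in `S` and not above two, and a level `n`
with `E[n] ≅ E₀[n]` -/
def HasPartner {K : Type} [Field K] [NumberField K] (S : Finset (HeightOneSpectrum (𝓞 K)))
    (A B : K) : Prop :=
  ∃ A₀ B₀ : K, 4 * A₀ ^ 3 + 27 * B₀ ^ 2 ≠ 0 ∧
    (∀ v : HeightOneSpectrum (𝓞 K), v ∉ S → v.valuation K 2 = 1 → GoodAt v (curve A₀ B₀)) ∧
    ∃ n : ℕ, Level (Module.finrank ℚ K) n ∧ Congruent n A B A₀ B₀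

/-- the invariants of the curves with full two-torsion, of any conductor, which are not exceptional
and have a partner with good reduction outside `S` -/
def Invariants (K : Type) [Field K] [NumberField K] (S : Finset (HeightOneSpectrum (𝓞 K))) :
    Set K :=
  {j | ∃ A B : K, 4 * A ^ 3 + 27 * B ^ 2 ≠ 0 ∧ FullTwo (curve A B) ∧ jInvariant A B = j ∧
    Szpiro j ∧ HasPartner S A B}

/-- the classes of the curves with full two-torsion and conductor at most `X` which are not
exceptional and have a partner with good reduction outside `S` -/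
def Classes (K : Type) [Field K] [NumberField K] (S : Finset (HeightOneSpectrum (𝓞 K)))
    (X : ℝ) : Set (IsoClass K) :=
  {q | ∃ A B : K, Quotient.mk'' (curve A B) = q ∧ 4 * A ^ 3 + 27 * B ^ 2 ≠ 0 ∧
    FullTwo (curve A B) ∧ cond (curve A B) ≤ X ∧ Szpiro (jInvariant A B) ∧ HasPartner S A B}

/-- the pairs of classes of curves with full two-torsion and conductor at most `X` which are
congruent at some level -/
def Pairs (K : Type) [Field K] [NumberField K] (X : ℝ) : Set (IsoClass K × IsoClass K) :=
  {p | p.1 ∈ Curves K X ∧ p.2 ∈ Curves K X ∧ ∃ A B A₀ B₀ : K, Quotient.mk'' (curve A B) = p.1 ∧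
    Quotient.mk'' (curve A₀ B₀) = p.2 ∧ 4 * A ^ 3 + 27 * B ^ 2 ≠ 0 ∧
    4 * A₀ ^ 3 + 27 * B₀ ^ 2 ≠ 0 ∧ ∃ n : ℕ, Level (Module.finrank ℚ K) n ∧
      Congruent n A B A₀ B₀}

/-- **Few partners outside a sparse set of curves.** -/
theorem result (K : Type) [Field K] [NumberField K] :
    (∃ c C X₀ : ℝ, 0 < c ∧ ∀ X : ℝ, X₀ ≤ X → (Curves K X).Finite ∧
      c * X ^ (2 / 3 : ℝ) ≤ ((Curves K X).ncard : ℝ) ∧
      ((Curves K X).ncard : ℝ) ≤ C * X ^ (2 / 3 : ℝ)) ∧
    (∃ ν C : ℝ, 0 < ν ∧ ∀ X : ℝ, 1 ≤ X →
      ((Exceptional K X).ncard : ℝ) ≤ C * X ^ (2 / 3 - ν)) ∧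
    (∃ C M : ℝ, ∀ S : Finset (HeightOneSpectrum (𝓞 K)),
      (Invariants K S).Finite ∧ ((Invariants K S).ncard : ℝ) ≤ C * M ^ S.card) ∧
    (∀ ε : ℝ, 0 < ε → ∃ C M : ℝ, ∀ (S : Finset (HeightOneSpectrum (𝓞 K))) (X : ℝ), 1 ≤ X →
      ((Classes K S X).ncard : ℝ) ≤ C * M ^ S.card * X ^ ε) ∧
    (∀ ε : ℝ, 0 < ε → ∃ C : ℝ, ∀ X : ℝ, 1 ≤ X →
      (({p | p ∈ Pairs K X ∧ p.1 ∉ Exceptional K X} : Set (IsoClass K × IsoClass K)).ncard : ℝ) ≤
        C * X ^ (2 / 3 + ε)) ∧
    (∃ ν C : ℝ, 0 < ν ∧ ∀ X : ℝ, 1 ≤ X →
      ((Pairs K X).ncard : ℝ) ≤ C * X ^ (4 / 3 - ν)) := by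
  have hpar : ∀ (S : Finset (HeightOneSpectrum (𝓞 K))) (A B : K), HasPartner S A B →
      Pool.Agent.R365.CP.Par S A B := by
    rintro S A B ⟨A₀, B₀, h1, h2, n, h3, f, f1, f2, f3⟩
    exact ⟨A₀, B₀, h1, h2, n, f, h3, ⟨f1, f2, f3⟩⟩
  have hprs : ∀ (X : ℝ) (p : IsoClass K × IsoClass K), p ∈ Pairs K X →
      p ∈ Pool.Agent.R365.CP.Prs K X := by
    rintro X p ⟨h1, h2, A, B, A₀, B₀, h3, h4, h5, h6, n, h7, f, f1, f2, f3⟩
    exact ⟨h1, h2, A, B, A₀, B₀, h3, h4, h5, h6, n, f, h7, ⟨f1, f2, f3⟩⟩
  refine ⟨Pool.Agent.R365.CP.two_sided K, ?_, ?_, ?_, ?_, ?_⟩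
  · obtain ⟨ν, C, hν, -, h⟩ := Pool.Agent.R365.CP.exc_count K
    exact ⟨ν, C, hν, h⟩
  · obtain ⟨C, M, -, -, h⟩ := Pool.Agent.R365.CP.inv_count K
    refine ⟨C, M, fun S => ?_⟩
    obtain ⟨h1, h2⟩ := h S
    have hsub : Invariants K S ⊆ _ := fun j hj => by
      obtain ⟨A, B, g1, g2, g3, g4, g5⟩ := hj
      exact (⟨A, B, g1, g2, g3, g4, hpar S A B g5⟩ : ∃ A B : K, 4 * A ^ 3 + 27 * B ^ 2 ≠ 0 ∧
        Pool.Agent.TH876.FH.FullTwo (Pool.Agent.H901R3.MS.CV A B) ∧
        Pool.Agent.Y673.Loc.jv A B = j ∧ Pool.Agent.R365.CP.Szp j ∧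
        Pool.Agent.R365.CP.Par S A B)
    exact ⟨h1.subset hsub, le_trans (Nat.cast_le.2 (Set.ncard_le_ncard hsub h1)) h2⟩
  · intro ε hε
    obtain ⟨C, M, -, -, h⟩ := Pool.Agent.R365.CP.cls_count K ε hε
    refine ⟨C, M, fun S X hX => (Pool.Agent.Y729.AH.fin_of_bound _ _ fun Q hQ =>
      h S X hX Q fun q hq => ?_).2⟩
    obtain ⟨A, B, g1, g2, g3, g4, g5, g6⟩ := hQ hq
    exact ⟨A, B, g1, g2, g3, g4, g5, hpar S A B g6⟩
  · intro ε hε
    obtain ⟨C, -, h⟩ := Pool.Agent.R365.CP.pairs_reg K ε hε
    refine ⟨C, fun X hX => (Pool.Agent.Y729.AH.fin_of_bound _ _ fun P hP =>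
      h X hX P fun p hp => ?_).2⟩
    obtain ⟨g1, g2⟩ := hP hp
    refine ⟨hprs X p g1, ?_⟩
    obtain ⟨E, k1, k2, k3, k4⟩ := g1.1
    refine ⟨E, k1, ?_⟩
    by_contra hc
    exact g2 ⟨E, k1, k2, k3, k4, hc⟩
  · obtain ⟨ν, C, hν, -, h⟩ := Pool.Agent.R365.CP.pairs_all K
    exact ⟨ν, C, hν, fun X hX => (Pool.Agent.Y729.AH.fin_of_bound _ _ fun P hP =>
      h X hX P fun p hp => hprs X p (hP hp)).2⟩

end Pool.Agent.Results.MP_4a0cc8_nt.FewPartnersOutsideExceptions
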