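import Pool.Agent.Results.MP_4a0cc8_nt.PartnerWindows
import Pool.Agent.R559.NP.Near2
import Pool.Agent.TH4.FZ.Scale

/-!
# For curves with the invariant near a given point the conjecture holds

Let `K` be a number field, `H` the height and `φ` a map from `K` to a metric space `X` (for example an embedding of `K` in
a completion `ℂ` or `K_v`, or the embedding in the product of all archimedean completions).  For all `ξ ∈ X` outside a set
of Hausdorff dimension zero and all `τ > 0` there is `n₀` such that for EVERY elliptic curve `E₀` over `K` and every `c`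
there are, up to isomorphism, only finitely many elliptic curves `E` over `K` with `dist (φ (j(E))) ξ ≤ c H(j(E)) ^ (-τ)`
such that `E[n] ≅ E₀[n]` for some `n ≥ n₀`.  Hence there is `n₁ = n₁(E₀)` such that `E[n] ≅ E₀[n]` for a single `n ≥ n₁`
implies `E[m] ≅ E₀[m]` for infinitely many `m`, for all these `E`.
-/

set_option autoImplicit false

open Filter Topology NumberField
open scoped ENNReal Classical

namespace Pool.Agent.Results.MP_4a0cc8_nt.PartnersNearAPoint

open FewPartnersAllLevels (Congruent jInvariant Isomorphic curve Points galois)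
open WeierstrassCurve WeierstrassCurve.Affine Pool.Agent.TH4.FZ

variable {K : Type} [Field K]

lemma sc_of' {A B t : K} (ht : t ≠ 0) :
    Sc ((curve A B).baseChange (AlgebraicClosure K)).toAffine
      ((curve (t ^ 4 * A) (t ^ 6 * B)).baseChange (AlgebraicClosure K)).toAffine
      (algebraMap K (AlgebraicClosure K) t) where
  a1 := map_zero _
  a2 := map_zero _
  a3 := map_zero _
  b1 := map_zero _
  b2 := map_zero _
  b3 := map_zero _
  h4 := by
    show algebraMap K (AlgebraicClosure K) (t ^ 4 * A) = _ * algebraMap K (AlgebraicClosure K) A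
    rw [map_mul, map_pow]
  h6 := by
    show algebraMap K (AlgebraicClosure K) (t ^ 6 * B) = _ * algebraMap K (AlgebraicClosure K) B
    rw [map_mul, map_pow]
  hu := by
    rw [Ne, map_eq_zero_iff _ (FaithfulSMul.algebraMap_injective K (AlgebraicClosure K))]
    exact ht

lemma iso_symm {A B A' B' : K} (h : Isomorphic A B A' B') : Isomorphic A' B' A B := by
  obtain ⟨t, ht, rfl, rfl⟩ := h
  refine ⟨t⁻¹, inv_ne_zero ht, ?_, ?_⟩
  · field_simp
  · field_simp

lemma iso_refl (A B : K) : Isomorphic A B A B := ⟨1, one_ne_zero, by simp, by simp⟩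

lemma iso_trans {A B A' B' A'' B'' : K} (h : Isomorphic A B A' B') (h' : Isomorphic A' B' A'' B'') :
    Isomorphic A B A'' B'' := by
  obtain ⟨t, ht, rfl, rfl⟩ := h
  obtain ⟨u, hu, rfl, rfl⟩ := h'
  exact ⟨u * t, mul_ne_zero hu ht, by ring, by ring⟩

lemma iso_disc {A B A' B' : K} (h : Isomorphic A B A' B') (h0 : 4 * A ^ 3 + 27 * B ^ 2 ≠ 0) :
    4 * A' ^ 3 + 27 * B' ^ 2 ≠ 0 := by
  obtain ⟨t, ht, rfl, rfl⟩ := h
  have : 4 * (t ^ 4 * A) ^ 3 + 27 * (t ^ 6 * B) ^ 2 = t ^ 12 * (4 * A ^ 3 + 27 * B ^ 2) := by ring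
  rw [this]
  exact mul_ne_zero (pow_ne_zero _ ht) h0

/-- congruences depend only on the isomorphism class of the curve -/
lemma congr_iso {n : ℕ} {A B A' B' A₀ B₀ : K} (hi : Isomorphic A B A' B')
    (h : Congruent n A' B' A₀ B₀) : Congruent n A B A₀ B₀ := by
  obtain ⟨t, ht, rfl, rfl⟩ := hi
  obtain ⟨f, h1, h2, h3⟩ := h
  have hs := sc_of' (A := A) (B := B) ht
  have h0 : ∀ P : Points A B, n • P = 0 → n • scl hs P = 0 := by
    intro P hP
    rw [← scl_nsmul, hP]
    rfl
  refine ⟨fun P => f (scl hs P), ?_, ?_, ?_⟩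
  · intro P Q hP hQ
    show f (scl hs (P + Q)) = _
    rw [scl_add, h1 _ _ (h0 P hP) (h0 Q hQ)]
  · have hb : Set.BijOn (scl hs) {P | n • P = 0} {Q | n • Q = 0} := by
      refine ⟨?_, ?_, ?_⟩
      · intro P hP
        exact h0 P hP
      · intro P _ Q _ hPQ
        have := congrArg (scl hs.symm) hPQ
        rwa [scl_symm, scl_symm] at this
      · intro P hP
        refine ⟨scl hs.symm P, ?_, scl_symm' hs P⟩
        show n • scl hs.symm P = 0
        rw [← scl_nsmul, hP]
        rfl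
    exact h2.comp hb
  · intro σ P hP
    show f (scl hs (galois A B σ P)) = galois A₀ B₀ σ (f (scl hs P))
    rw [← h3 σ (scl hs P) (h0 P hP)]
    congr 1
    rcases P with _ | ⟨x, y, hn⟩
    · rfl
    · obtain ⟨h', e1⟩ : ∃ h', galois A B σ (Point.some x y hn) = Point.some (σ x) (σ y) h' :=
        ⟨_, rfl⟩
      rw [e1]
      show Point.some _ _ _ = Point.some _ _ _
      have e2 : σ (algebraMap K (AlgebraicClosure K) t) = algebraMap K (AlgebraicClosure K) t :=
        σ.commutes t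
      congr 1
      · show _ = σ (_ ^ 2 * x)
        rw [map_mul, map_pow, e2]
      · show _ = σ (_ ^ 3 * y)
        rw [map_mul, map_pow, e2]

/-- isomorphism classes -/
def st (K : Type) [Field K] : Setoid (K × K) where
  r e e' := Isomorphic e.1 e.2 e'.1 e'.2
  iseqv := ⟨fun e => iso_refl e.1 e.2, fun h => iso_symm h, fun h h' => iso_trans h h'⟩

/-- a representative of the isomorphism class -/
noncomputable def rep (e : K × K) : K × K := (Quotient.mk (st K) e).out

lemma rep_iso (e : K × K) : Isomorphic (rep e).1 (rep e).2 e.1 e.2 :=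
  Quotient.mk_out (s := st K) e

lemma rep_eq {e e' : K × K} (h : Isomorphic e.1 e.2 e'.1 e'.2) : rep e = rep e' := by
  unfold rep
  congr 1
  exact Quotient.sound (s := st K) h

lemma rep_rep (e : K × K) : rep (rep e) = rep e := rep_eq (rep_iso e)

/-- **Theorem.** Let `K` be a number field and `φ` a map from `K` to a metric space `X`.  There is `E ⊆ X` of Hausdorff
dimension zero such that for all `ξ ∈ X` outside `E` and all `τ > 0` there is `n₀` such that for EVERY elliptic curve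
`E₀ : y² = x³ + A₀x + B₀` over `K`, `A₀`, `B₀` integral, and every `c`
(1) up to isomorphism there are only finitely many elliptic curves over `K`, congruent to `E₀` modulo some `n ≥ n₀`, whose
invariant `j` satisfies `dist (φ j) ξ ≤ c H(j) ^ (-τ)`;
(2) there is `n₁` such that every elliptic curve over `K` which satisfies the last inequality and is congruent to `E₀`
modulo a single `n ≥ n₁` is congruent to `E₀` modulo infinitely many `m`. -/
theorem result (K : Type) [Field K] [NumberField K] (X : Type) [MetricSpace X] (φ : K → X) :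
    ∃ E : Set X, dimH E = 0 ∧ ∀ ξ : X, ξ ∉ E → ∀ τ : ℝ, 0 < τ → ∃ n₀ : ℕ,
      ∀ A₀ B₀ : 𝓞 K, 4 * A₀ ^ 3 + 27 * B₀ ^ 2 ≠ 0 → ∀ c : ℝ,
        (∃ 𝓔 : Finset (K × K), ∀ A B : K, 4 * A ^ 3 + 27 * B ^ 2 ≠ 0 →
          dist (φ (jInvariant A B)) ξ ≤ c * Height.mulHeight₁ (jInvariant A B) ^ (-τ) →
          ∀ n : ℕ, n₀ ≤ n → Congruent n A B (A₀ : K) (B₀ : K) →
          ∃ e ∈ 𝓔, Isomorphic e.1 e.2 A B) ∧
        (∃ n₁ : ℕ, ∀ A B : K, 4 * A ^ 3 + 27 * B ^ 2 ≠ 0 →
          dist (φ (jInvariant A B)) ξ ≤ c * Height.mulHeight₁ (jInvariant A B) ^ (-τ) →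
          ∀ n : ℕ, n₁ ≤ n → Congruent n A B (A₀ : K) (B₀ : K) →
          {m : ℕ | Congruent m A B (A₀ : K) (B₀ : K)}.Infinite) := by
  have hK : Countable K := (Module.finBasis ℚ K).equivFun.injective.countable
  have hcnt : Countable (𝓞 K) := (RingOfIntegers.coe_injective (K := K)).countable
  have hfew := fun j : ℕ => FewPartnersAllLevels.result (Module.finrank ℚ K) (1 / ((j : ℝ) + 1))
    (by positivity)
  choose N hN using hfew
  obtain ⟨E, hE, hE'⟩ := Pool.Agent.R559.NP.near_zero_fam (T := K × K) (X := X) (Y := 𝓞 K × 𝓞 K)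
    (H := fun e => Height.mulHeight₁ (jInvariant e.1 e.2)) (fun e => Height.one_le_mulHeight₁ _)
    (Bad := fun j y e => 4 * y.1 ^ 3 + 27 * y.2 ^ 2 ≠ 0 ∧ rep e = e ∧ 4 * e.1 ^ 3 + 27 * e.2 ^ 2 ≠ 0 ∧
      ∃ n : ℕ, N j ≤ n ∧ Congruent n e.1 e.2 (y.1 : K) (y.2 : K))
    (s := fun j => 1 / ((j : ℝ) + 1)) (fun j => by positivity)
    tendsto_one_div_add_atTop_nhds_zero_nat (by
      intro j y ε hε
      obtain ⟨C, κ, h'⟩ := hN j K rfl
      by_cases hy : 4 * y.1 ^ 3 + 27 * y.2 ^ 2 ≠ 0
      · have h1 := h' y.1 y.2 hy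
        set M : ℝ := |((Algebra.norm ℤ (4 * y.1 ^ 3 + 27 * y.2 ^ 2) : ℤ) : ℝ)| ^ κ with hM
        refine ⟨max (C * M) 0, fun B hB => ?_⟩
        have key : ∀ F : Finset (K × K), (∀ e ∈ F, (4 * y.1 ^ 3 + 27 * y.2 ^ 2 ≠ 0 ∧ rep e = e ∧
            4 * e.1 ^ 3 + 27 * e.2 ^ 2 ≠ 0 ∧ ∃ n : ℕ, N j ≤ n ∧ Congruent n e.1 e.2 (y.1 : K) (y.2 : K)) ∧
            Height.mulHeight₁ (jInvariant e.1 e.2) ≤ B) →
            (F.card : ℝ) ≤ max (C * M) 0 * B ^ (1 / ((j : ℝ) + 1) + ε) := by
          intro F hF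
          refine (h1 B hB F ?_ ?_).trans ?_
          · intro e he e' he' hiso
            rw [← (hF e he).1.2.1, ← (hF e' he').1.2.1]
            exact rep_eq hiso
          · intro e he
            obtain ⟨⟨-, -, h3, h4⟩, h5⟩ := hF e he
            exact ⟨h3, h5, h4⟩
          · refine mul_le_mul (le_max_left _ _) ?_ (by positivity) (le_max_right _ _)
            exact Real.rpow_le_rpow_of_exponent_le hB (by linarith)
        have hfin : {e : K × K | (4 * y.1 ^ 3 + 27 * y.2 ^ 2 ≠ 0 ∧ rep e = e ∧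
            4 * e.1 ^ 3 + 27 * e.2 ^ 2 ≠ 0 ∧ ∃ n : ℕ, N j ≤ n ∧ Congruent n e.1 e.2 (y.1 : K) (y.2 : K)) ∧
            Height.mulHeight₁ (jInvariant e.1 e.2) ≤ B}.Finite := by
          by_contra hinf
          obtain ⟨F, hF1, hF2⟩ := (show Set.Infinite _ from hinf).exists_subset_card_eq
            (⌊max (C * M) 0 * B ^ (1 / ((j : ℝ) + 1) + ε)⌋₊ + 1)
          have h2 := key F (fun x hx => hF1 hx)
          rw [hF2] at h2
          push_cast at h2
          have h3 := Nat.lt_floor_add_one (max (C * M) 0 * B ^ (1 / ((j : ℝ) + 1) + ε))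
          linarith
        refine ⟨hfin, ?_⟩
        rw [Set.ncard_eq_toFinset_card _ hfin]
        exact key hfin.toFinset (fun x hx => by
          rw [Set.Finite.mem_toFinset] at hx
          exact hx)
      · refine ⟨0, fun B hB => ?_⟩
        have he : {e : K × K | (4 * y.1 ^ 3 + 27 * y.2 ^ 2 ≠ 0 ∧ rep e = e ∧
            4 * e.1 ^ 3 + 27 * e.2 ^ 2 ≠ 0 ∧ ∃ n : ℕ, N j ≤ n ∧ Congruent n e.1 e.2 (y.1 : K) (y.2 : K)) ∧
            Height.mulHeight₁ (jInvariant e.1 e.2) ≤ B} = ∅ := by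
          ext e
          simp only [Set.mem_ofPred_eq, Set.mem_empty_iff_false, iff_false]
          rintro ⟨⟨h3, -⟩, -⟩
          exact hy h3
        rw [he]
        simp) (fun _ e => φ (jInvariant e.1 e.2))
  refine ⟨E, hE, fun ξ hξ τ hτ => ?_⟩
  obtain ⟨j, hj⟩ := hE' ξ hξ τ hτ
  refine ⟨N j, fun A₀ B₀ h0 c => ?_⟩
  have hfin := hj (A₀, B₀) c
  -- the representative of a near curve lies in the finite set
  have hmem : ∀ A B : K, 4 * A ^ 3 + 27 * B ^ 2 ≠ 0 →
      dist (φ (jInvariant A B)) ξ ≤ c * Height.mulHeight₁ (jInvariant A B) ^ (-τ) →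
      ∀ n : ℕ, N j ≤ n → Congruent n A B (A₀ : K) (B₀ : K) → rep (A, B) ∈ hfin.toFinset := by
    intro A B hAB hd n hn hcong
    have hiso := rep_iso (A, B)
    have hji : jInvariant A B = jInvariant (rep (A, B)).1 (rep (A, B)).2 := PartnerWindows.j_iso hiso
    rw [Set.Finite.mem_toFinset]
    refine ⟨?_, h0, rep_rep _, iso_disc (iso_symm hiso) hAB, n, hn, congr_iso hiso hcong⟩
    rw [hji] at hd
    exact hd
  constructor
  · exact ⟨hfin.toFinset, fun A B hAB hd n hn hcong => ⟨rep (A, B), hmem A B hAB hd n hn hcong, rep_iso (A, B)⟩⟩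
  · -- the levels of the curves with finitely many levels are bounded
    have hb : ∀ e : K × K, ∃ n₂ : ℕ, ¬ {m : ℕ | Congruent m e.1 e.2 (A₀ : K) (B₀ : K)}.Infinite →
        ∀ m : ℕ, Congruent m e.1 e.2 (A₀ : K) (B₀ : K) → m < n₂ := by
      intro e
      by_cases h : {m : ℕ | Congruent m e.1 e.2 (A₀ : K) (B₀ : K)}.Infinite
      · exact ⟨0, fun h' => absurd h h'⟩
      · rw [Set.not_infinite] at h
        obtain ⟨M, hM⟩ := h.bddAbove
        exact ⟨M + 1, fun _ m hm => Nat.lt_succ_of_le (hM hm)⟩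
    choose b hb using hb
    refine ⟨max (N j) (hfin.toFinset.sup b), fun A B hAB hd n hn hcong => ?_⟩
    have h1 := hmem A B hAB hd n ((le_max_left _ _).trans hn) hcong
    have hiso := rep_iso (A, B)
    by_contra hinf
    have hinf' : ¬ {m : ℕ | Congruent m (rep (A, B)).1 (rep (A, B)).2 (A₀ : K) (B₀ : K)}.Infinite := by
      intro h
      apply hinf
      refine h.mono fun m hm => ?_
      exact congr_iso (iso_symm hiso) hm
    have h2 := hb (rep (A, B)) hinf' n (congr_iso hiso hcong)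
    have h3 : b (rep (A, B)) ≤ hfin.toFinset.sup b := Finset.le_sup h1
    have h4 := (le_max_right (N j) (hfin.toFinset.sup b)).trans hn
    omega

end Pool.Agent.Results.MP_4a0cc8_nt.PartnersNearAPoint
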