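import Pool.Agent.Results.MP_4a0cc8_nt.PartnerWindows
import Pool.Agent.R482.ST.Star

/-!
# No curve with the height of its invariant near powers, orbits and other sequences is congruent to a given curve

Let `K` be a number field and `H` the height on `K`. Let `f_n`, `n = 0, 1, 2, …`, be positive functions on `(a, ∞)`, `a ≥ 0`, such that `f_n(t) / t` is nondecreasing, and such
that the sequence `f_n(t)` has exponent of convergence at most `τ` for each `t > a`: for instance `f_n(t) = t ^ (v_n)` for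
exponents `v_n ≥ 1` (`τ = 0`; all powers, the powers `t ^ (3 ^ n)` of Mills, …), the orbits `f_n(t) = g (g (⋯ g (t)))` of any
map `g` with `g(t) > t` and `g(t) / t` nondecreasing (`τ = 0`; for instance of `t² + c`), and `f_n(t) = v_n t`.
Let `θ < 1`. For all `α > a` outside a set of Hausdorff dimension at most `τ / (1 - θ)` there is `n₀` with the following
property: for EVERY elliptic curve `E₀ : y² = x³ + A₀x + B₀` over `K`, `A₀`, `B₀` integral, every `c` and all but finitely many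
`k`, NO elliptic curve `E` over `K` with `|H(j(E)) - f_k(α)| ≤ c f_k(α) ^ θ` satisfies `E[n] ≅ E₀[n]` for some `n ≥ n₀`.
-/

set_option autoImplicit false

open Filter Topology NumberField
open scoped ENNReal

namespace Pool.Agent.Results.MP_4a0cc8_nt.StarshapedPartners

open FewPartnersAllLevels (Congruent jInvariant Isomorphic)
open PartnerWindows (Partners partners_count)

/-- the functions `f n` are positive on `(a, ∞)`, `a ≥ 0`, and `f n x / x` is nondecreasing there -/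
def Starshaped (a : ℝ) (f : ℕ → ℝ → ℝ) : Prop :=
  0 ≤ a ∧ ∀ n : ℕ, ∀ x y : ℝ, a < x → x ≤ y → 0 < f n x ∧ f n x / x ≤ f n y / y

/-- for each `x > a` the exponent of convergence of the sequence `f n x` is at most `τ` -/
def ExpLe (a : ℝ) (f : ℕ → ℝ → ℝ) (τ : ℝ) : Prop :=
  ∀ x : ℝ, a < x → ∀ t : ℝ, τ < t → Summable (fun n : ℕ => (f n x) ^ (-t))

/-- **Theorem.** Let `f` be starshaped functions on `(a, ∞)` of exponent of convergence at most `τ ≥ 0`, `θ < 1` and `K` a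
number field. There is a set `E` of Hausdorff dimension at most `τ / (1 - θ)` such that for each `α > a` outside `E` there is
`n₀` with the following property: for EVERY elliptic curve `E₀ : y² = x³ + A₀x + B₀` over `K`, `A₀`, `B₀` integral, and each `c`
there is `k₀` such that for all `k ≥ k₀` no elliptic curve `y² = x³ + Ax + B` over `K` with `|H(j) - f_k(α)| ≤ c f_k(α) ^ θ`,
`H(j)` the height of its invariant, is congruent to `E₀` modulo some `n ≥ n₀`. The functions `v_n x`, `v_n > 0`, are starshaped on `(0, ∞)`, of exponent `τ` if `v` has exponent of convergence at most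
`τ`; the functions `x ^ (v_n)`, `v_n ≥ 1`, are starshaped on `(1, ∞)`, of exponent `0` if the sums of `exp (-t v_n)` converge
for `t > 0`; and the iterates of a map `g` with `g(x) > x` for `x > a` and `g(x) / x` nondecreasing are starshaped on
`(a, ∞)`, of exponent `0`. -/
theorem result :
    (∀ (a : ℝ) (f : ℕ → ℝ → ℝ) (τ θ : ℝ), Starshaped a f → 0 ≤ τ → ExpLe a f τ → θ < 1 →
      ∀ (K : Type) [Field K] [NumberField K],
      ∃ E : Set ℝ, dimH E ≤ ENNReal.ofReal (τ / (1 - θ)) ∧ ∀ α : ℝ, a < α → α ∉ E → ∃ n₀ : ℕ,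
        ∀ A₀ B₀ : 𝓞 K, 4 * A₀ ^ 3 + 27 * B₀ ^ 2 ≠ 0 → ∀ c : ℝ, ∃ k₀ : ℕ, ∀ k : ℕ, k₀ ≤ k → ∀ A B : K,
          4 * A ^ 3 + 27 * B ^ 2 ≠ 0 → |Height.mulHeight₁ (jInvariant A B) - f k α| ≤ c * (f k α) ^ θ →
          ∀ n : ℕ, n₀ ≤ n → ¬ Congruent n A B (A₀ : K) (B₀ : K)) ∧
    (∀ (v : ℕ → ℝ) (τ : ℝ), (∀ n, 0 < v n) → (∀ t : ℝ, τ < t → Summable (fun n : ℕ => (v n) ^ (-t))) →
      Starshaped 0 (fun n x => v n * x) ∧ ExpLe 0 (fun n x => v n * x) τ) ∧
    (∀ v : ℕ → ℝ, (∀ n, 1 ≤ v n) → (∀ t : ℝ, 0 < t → Summable fun n : ℕ => Real.exp (-(t * v n))) →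
      Starshaped 1 (fun n x => x ^ (v n)) ∧ ExpLe 1 (fun n x => x ^ (v n)) 0) ∧
    (∀ (a : ℝ) (g : ℝ → ℝ), 0 ≤ a → (∀ x y : ℝ, a < x → x ≤ y → g x / x ≤ g y / y) → (∀ x : ℝ, a < x → x < g x) →
      Starshaped a (fun n x => g^[n] x) ∧ ExpLe a (fun n x => g^[n] x) 0) := by
  classical
  refine ⟨fun a f τ θ hf hτ hE hθ1 K _ _ => ?_,
    Pool.Agent.R482.ST.ex_mul, Pool.Agent.R482.ST.ex_pow,
    Pool.Agent.R482.ST.ex_orbit⟩
  have hK : Countable K := (Module.finBasis ℚ K).equivFun.injective.countable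
  have hcnt : Countable (𝓞 K) := (RingOfIntegers.coe_injective (K := K)).countable
  have hall : ∀ j : ℕ, ∃ (n₀ : ℕ) (G : 𝓞 K × 𝓞 K → Set ℝ),
      ∀ e : 𝓞 K × 𝓞 K, dimH (G e) ≤ ENNReal.ofReal ((1 / ((j : ℝ) + 1) + τ) / (1 - θ)) ∧
      ∀ α : ℝ, a < α → α ∉ G e → 4 * e.1 ^ 3 + 27 * e.2 ^ 2 ≠ 0 → ∀ c : ℝ, ∃ k₀ : ℕ, ∀ k : ℕ, k₀ ≤ k →
        ∀ x ∈ Partners n₀ (e.1 : K) (e.2 : K), c * (f k α) ^ θ < |Height.mulHeight₁ x - f k α| := by
    intro j
    obtain ⟨n₀, h⟩ := partners_count (Module.finrank ℚ K) (1 / ((j : ℝ) + 1)) (by positivity)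
    have hone : ∀ e : 𝓞 K × 𝓞 K, ∃ G : Set ℝ, dimH G ≤ ENNReal.ofReal ((1 / ((j : ℝ) + 1) + τ) / (1 - θ)) ∧
      ∀ α : ℝ, a < α → α ∉ G → 4 * e.1 ^ 3 + 27 * e.2 ^ 2 ≠ 0 → ∀ c : ℝ, ∃ k₀ : ℕ, ∀ k : ℕ, k₀ ≤ k →
        ∀ x ∈ Partners n₀ (e.1 : K) (e.2 : K), c * (f k α) ^ θ < |Height.mulHeight₁ x - f k α| := by
      intro e
      by_cases he : 4 * e.1 ^ 3 + 27 * e.2 ^ 2 ≠ 0
      · obtain ⟨C, hC, h'⟩ := h K rfl e.1 e.2 he
        obtain ⟨E, h3, h4⟩ := Pool.Agent.R482.ST.windows (Partners n₀ (e.1 : K) (e.2 : K))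
          (fun x => Height.mulHeight₁ x) hf hτ hE (s := 1 / ((j : ℝ) + 1)) (by positivity) hθ1 (fun ε hε => by
            refine ⟨C, fun X hX => ⟨(h' X hX).1, (h' X hX).2.trans ?_⟩⟩
            apply mul_le_mul_of_nonneg_left _ hC
            exact Real.rpow_le_rpow_of_exponent_le hX (by linarith))
        exact ⟨E, h3, fun α hα hαE _ => h4 α hα hαE⟩
      · exact ⟨∅, by simp, fun α _ _ he' => absurd he' he⟩
    choose G hG using hone
    exact ⟨n₀, G, hG⟩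
  choose n₀ G hG using hall
  have hlim : Tendsto (fun m : ℕ => ENNReal.ofReal ((1 / ((m : ℝ) + 1) + τ) / (1 - θ))) atTop
      (𝓝 (ENNReal.ofReal ((0 + τ) / (1 - θ)))) :=
    ENNReal.tendsto_ofReal ((tendsto_one_div_add_atTop_nhds_zero_nat.add_const τ).div_const (1 - θ))
  rw [zero_add] at hlim
  refine ⟨⋂ m, ⋃ e, G m e, ge_of_tendsto' hlim fun m => (dimH_mono (Set.iInter_subset _ m)).trans ?_,
    fun α hα hαE => ?_⟩
  · rw [dimH_iUnion]
    exact iSup_le fun e => (hG m e).1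
  · rw [Set.mem_iInter] at hαE
    push Not at hαE
    obtain ⟨j, hj⟩ := hαE
    rw [Set.mem_iUnion] at hj
    push Not at hj
    refine ⟨n₀ j, fun A₀ B₀ h0 c => ?_⟩
    obtain ⟨k₀, hk⟩ := (hG j (A₀, B₀)).2 α hα (hj (A₀, B₀)) h0 c
    refine ⟨k₀, fun k hk1 A B hAB hw n hn hcon => ?_⟩
    exact absurd hw (not_le.2 (hk k hk1 (jInvariant A B) ⟨A, B, hAB, rfl, n, hn, hcon⟩))

end Pool.Agent.Results.MP_4a0cc8_nt.StarshapedPartners
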